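import Pool.Agent.H564Z.SOMain

set_option autoImplicit false

namespace Pool.Agent.Results.MP_1d68f0_gt.ANotSpanning

open Pool.Agent.H564Z.SO

/-- For `G = SO(16)` and every genus `g ≥ 2` there is a path of representations `ρ t` such that
`ρ 0` has centraliser `{1, -1}` (the centre, so `[ρ 0]` is a smooth point), the velocity `c` of
the path at `t = 0` is not tangent to the conjugation orbit, and the derivative of
`t ↦ f (ρ t γ)` at `0` vanishes for every differentiable class function `f` and every `γ`. -/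
theorem result (g : ℕ) (hg : 2 ≤ g) :
    ∃ (ρ : ℝ → (SurfaceGroup g →* SO16)) (c : SurfaceGroup g → Matrix (Fin 16) (Fin 16) ℝ),
      (∀ h : SO16, (∀ γ, h * ρ 0 γ = ρ 0 γ * h) → h.1 = 1 ∨ h.1 = -1) ∧
      (∀ γ i j, HasDerivAt (fun t => (ρ t γ).1 i j) (c γ i j) 0) ∧
      (¬ ∃ Y : Matrix (Fin 16) (Fin 16) ℝ, ∀ γ, c γ = Y * (ρ 0 γ).1 - (ρ 0 γ).1 * Y) ∧
      ∀ f : (Fin 16 → Fin 16 → ℝ) → ℝ,
        DifferentiableOn ℝ f {A | Matrix.of A ∈ Matrix.specialOrthogonalGroup (Fin 16) ℝ} →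
        (∀ h k : SO16, f (fun i j => (h * k * h⁻¹).1 i j) = f (fun i j => k.1 i j)) →
        ∀ γ, HasDerivAt (fun t => f (fun i j => (ρ t γ).1 i j)) 0 0 :=
  main g hg

end Pool.Agent.Results.MP_1d68f0_gt.ANotSpanning
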