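import Mathlib
import Pool.Agent.H168Z.CV.B

set_option autoImplicit false

open Matrix

namespace Pool.Agent.Results.MP_1d68f0_gt.NotSpanning

/-- The relator `[a₁, b₁] ⋯ [a_k, b_k]`. -/
def relator (k : ℕ) : FreeGroup (Fin k × Bool) :=
  (List.ofFn fun i : Fin k => FreeGroup.of (i, false) * FreeGroup.of (i, true) *
    (FreeGroup.of (i, false))⁻¹ * (FreeGroup.of (i, true))⁻¹).prod

/-- The fundamental group of the closed orientable surface of genus `k`. -/
abbrev Surf (k : ℕ) : Type := PresentedGroup ({relator k} : Set (FreeGroup (Fin k × Bool)))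

/-- An index set with ten elements. -/
abbrev I10 : Type := Option (Fin 3 × Fin 3)

/-- The compact group `SO(10)`. -/
abbrev SO10 : Type := Matrix.specialOrthogonalGroup I10 ℝ

/-- The matrix entries of an element of `SO(10)`. -/
def ent (g : SO10) : I10 → I10 → ℝ := fun i j => (g : Matrix I10 I10 ℝ) i j

/-- The restriction of `f` to `SO(10)` is differentiable and invariant under conjugation. -/
def ClassFn (f : (I10 → I10 → ℝ) → ℝ) : Prop :=
  DifferentiableOn ℝ f (Set.range ent) ∧ ∀ g h : SO10, f (ent (h * g * h⁻¹)) = f (ent g)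

/-- The complex matrix of an element of `SO(10)`. -/
def cx (g : SO10) : Matrix I10 I10 ℂ := (g : Matrix I10 I10 ℝ).map Complex.ofReal

/-- The centraliser of the image in `SO(10, ℂ)` is the centre. -/
def Good {k : ℕ} (ρ : Surf k →* SO10) : Prop :=
  ∀ M : Matrix I10 I10 ℂ, M * Mᵀ = 1 → M.det = 1 → (∀ γ, M * cx (ρ γ) = cx (ρ γ) * M) →
    M = 1 ∨ M = -1

/-- `D` is the velocity at time zero of the path `ρ` of representations. -/
def Velocity {k : ℕ} (ρ : ℝ → Surf k →* SO10) (D : Surf k → Matrix I10 I10 ℝ) : Prop :=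
  ∀ γ, HasDerivAt (fun t => ent (ρ t γ)) (fun i j => D γ i j) 0

/-- `D` is tangent to the conjugation orbit of `σ`. -/
def Orbital {k : ℕ} (σ : Surf k →* SO10) (D : Surf k → Matrix I10 I10 ℝ) : Prop :=
  ∃ Y : Matrix I10 I10 ℝ, ∀ γ, D γ = Y * (σ γ : Matrix I10 I10 ℝ) - (σ γ : Matrix I10 I10 ℝ) * Y

open Pool.Agent.H168Z.CV in
theorem result (k : ℕ) (hk : 2 ≤ k) :
    ∃ (ρ : ℝ → Surf k →* SO10) (D : Surf k → Matrix I10 I10 ℝ),
      Good (ρ 0) ∧ Velocity ρ D ∧ ¬ Orbital (ρ 0) D ∧
        ∀ f, ClassFn f → ∀ γ, HasDerivAt (fun t => f (ent (ρ t γ))) 0 0 := by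
  have hrel : ∀ t : ℝ, ∀ r ∈ ({relator k} : Set (FreeGroup (Fin k × Bool))),
      FreeGroup.lift (gn k t) r = 1 := by
    intro t r hr
    rw [Set.mem_singleton_iff.1 hr, relator, map_list_prod]
    refine List.prod_eq_one fun x hx => ?_
    rw [List.map_ofFn, List.mem_ofFn] at hx
    obtain ⟨i, rfl⟩ := hx
    simp only [Function.comp, map_mul, map_inv, FreeGroup.lift_apply_of]
    rw [(gn_comm k t i).eq]
    group
  let ρ : ℝ → Surf k →* SO10 := fun t => PresentedGroup.toGroup (hrel t)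
  have hρ : ∀ t x, ρ t (PresentedGroup.of x) = gn k t x := fun t x =>
    PresentedGroup.toGroup.of (hrel t)
  have hN : ∀ γ, Nice fun t => ρ t γ := by
    intro γ
    have hγ : γ ∈ Subgroup.closure (Set.range (PresentedGroup.of : _ → Surf k)) := by
      rw [PresentedGroup.closure_range_of]
      trivial
    induction hγ using Subgroup.closure_induction with
    | mem x hx =>
      obtain ⟨x, rfl⟩ := hx
      simp only [hρ]
      exact gn_nice k x
    | one => simp only [map_one]; exact Nice.const InH.one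
    | mul x y _ _ hx hy => simp only [map_mul]; exact hx.mul hy
    | inv x _ hx => simp only [map_inv]; exact hx.inv
  choose p hp1 hp2 using fun γ => (hN γ).2
  have g1 : ∀ t, gn k t (⟨0, by omega⟩, false) = tr (1, 0) := fun t => by simp [gn]
  have g2 : ∀ t, gn k t (⟨0, by omega⟩, true) = rot t * d2 := fun t => by simp [gn]
  have g3 : ∀ t, gn k t (⟨1, by omega⟩, false) = tr (0, 1) := fun t => by simp [gn]
  have g4 : ∀ t, gn k t (⟨1, by omega⟩, true) = d1 := fun t => by simp [gn]
  have r0 : rot 0 = 1 := Subtype.ext (cay_zero _ _)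
  refine ⟨ρ, fun γ => (ρ 0 γ).1 * YY ee (p γ), fun M h1 h2 h3 => ?_, fun γ => (hp2 γ).pi, ?_,
    fun f hf γ => ?_⟩
  · have a1 := h3 (PresentedGroup.of (⟨0, by omega⟩, false))
    have a2 := h3 (PresentedGroup.of (⟨0, by omega⟩, true))
    have a3 := h3 (PresentedGroup.of (⟨1, by omega⟩, false))
    have a4 := h3 (PresentedGroup.of (⟨1, by omega⟩, true))
    rw [hρ, g1] at a1
    rw [hρ, g2, r0, one_mul] at a2
    rw [hρ, g3] at a3
    rw [hρ, g4] at a4
    exact central h1 h2 a1 a3 a4 a2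
  · rintro ⟨Y, hY⟩
    have a1 := hp2 (PresentedGroup.of (⟨0, by omega⟩, true))
    have a2 := hY (PresentedGroup.of (⟨0, by omega⟩, true))
    simp only at a2
    rw [a2] at a1
    simp only [hρ, g2, r0, one_mul] at a1
    have a3 : HD (fun t => (rot t * d2).1) ((2 : ℝ) • YY ee vv * d2.1) := by
      have := (cay_HD (YY ee vv) (vv ⬝ᵥ vv)).mul (HD.const d2.1)
      rwa [mul_zero, add_zero] at this
    have a4 := (a1 none (some (0, 0))).unique (a3 none (some (0, 0)))
    have a5 : d2.1 = diagonal s2 := mono_diag _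
    rw [a5] at a4
    simp [s2, YY, ee, vv, vecMulVec_apply] at a4
  · obtain ⟨L, hL⟩ := hf.1 _ (Set.mem_range_self (ρ 0 γ))
    have a1 := chain hL (c := fun t => ρ t γ) rfl (hp2 γ)
    rwa [kill3 hf.2 hL (hN γ).1 (hp1 γ)] at a1

end Pool.Agent.Results.MP_1d68f0_gt.NotSpanning
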